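import Pool.Agent.H207.BT.Stm5
import Pool.Agent.H137.BT207.TG3

/-!
# Targets everywhere, general goals (helper703, for helper207)
-/

set_option autoImplicit false

open Topology Filter Metric Set

namespace Pool.Agent.H703.BT207

open Pool.Agent.H790R3.RB Pool.Agent.H211.HY Pool.Agent.H207.BT
open Pool.Agent.H274.HY211 (cho_iot IsT_mono iter_deriv iot_hasDerivAt cr_iot fst_hasDerivAt
  snd_hasDerivAt)
open Pool.Agent.H137.BT207 (shift)

/-- the implicit function for a general moving goal -/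
theorem ift_g {d k : ℕ} {x₀ : CV d} {c₀ : Fin k → ℂ} {m : Fin k → ℕ} {X : (Fin k → ℂ) → CV d}
    {c : Fin k → (Fin k → ℂ) → ℂ} {ρ : ℝ} (hN : ND x₀)
    (hX : Fami x₀ k c₀ m X c ρ) {γ : (Fin k → ℂ) → ℂ × ℂ} (hγ : DifferentiableOn ℂ γ (ball 0 ρ))
    (hγ0 : γ 0 ≠ 0) (τ : Bool) (z : ℂ) (n : ℕ)
    (hw : ∀ i < n, wr x₀ ((hF x₀)^[i] (iot τ z)) ≠ 0)
    (h0 : cr ((hF x₀)^[n] (iot τ z)) (γ 0) = 0) :
    ∃ q : (Fin k → ℂ) → ℂ, ∃ r > (0 : ℝ), r ≤ ρ ∧ ∃ L : ℝ, IsT q r L ∧ q 0 = z ∧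
      ∀ s ∈ ball (0 : Fin k → ℂ) r, cr ((hF (X s))^[n] (iot τ (q s))) (γ s) = 0 := by
  classical
  set Φ : (Fin k → ℂ) × ℂ → ℂ := fun p => cr ((hF (X p.1))^[n] (iot τ p.2)) (γ p.1) with hΦ
  -- regularity
  have hXc : ContDiffAt ℂ 1 X 0 :=
    (Helper540.contDiffOn_of_differentiableOn isOpen_ball hX.dif 1).contDiffAt
      (isOpen_ball.mem_nhds (mem_ball_self hX.ρ0))
  have hcc : ContDiffAt ℂ 1 γ 0 :=
    (Helper540.contDiffOn_of_differentiableOn isOpen_ball hγ 1).contDiffAt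
      (isOpen_ball.mem_nhds (mem_ball_self hX.ρ0))
  have hio : ContDiff ℂ 1 (iot τ) := by
    cases τ with
    | true =>
      have e : iot true = fun z : ℂ => (z, (1 : ℂ)) := by funext z; simp [iot]
      rw [e]; exact contDiff_id.prodMk contDiff_const
    | false =>
      have e : iot false = fun z : ℂ => ((1 : ℂ), z) := by funext z; simp [iot]
      rw [e]; exact contDiff_const.prodMk contDiff_id
  have hX1 : ContDiffAt ℂ 1 (fun p : (Fin k → ℂ) × ℂ => X p.1) (0, z) :=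
    ContDiffAt.comp (0, z) (f := fun p : (Fin k → ℂ) × ℂ => p.1) (g := X) hXc contDiffAt_fst
  have hc1 : ContDiffAt ℂ 1 (fun p : (Fin k → ℂ) × ℂ => γ p.1) (0, z) :=
    ContDiffAt.comp (0, z) (f := fun p : (Fin k → ℂ) × ℂ => p.1) (g := γ) hcc contDiffAt_fst
  have hi1 : ContDiffAt ℂ 1 (fun p : (Fin k → ℂ) × ℂ => iot τ p.2) (0, z) :=
    (hio.comp contDiff_snd).contDiffAt
  have hF1 : ContDiffAt ℂ 1 (fun p : (Fin k → ℂ) × ℂ => (hF (X p.1))^[n] (iot τ p.2)) (0, z) :=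
    ContDiffAt.comp (0, z) (f := fun p : (Fin k → ℂ) × ℂ => (X p.1, iot τ p.2))
      (g := fun q : CV d × (ℂ × ℂ) => (hF q.1)^[n] q.2)
      (hF_iter_contDiff d n 1).contDiffAt (hX1.prodMk hi1)
  have hΦc : ContDiffAt ℂ 1 Φ (0, z) := by
    have h : Φ = fun p => ((hF (X p.1))^[n] (iot τ p.2)).1 * (γ p.1).2 -
        ((hF (X p.1))^[n] (iot τ p.2)).2 * (γ p.1).1 := by
      funext p; simp only [hΦ, cr]
    rw [h]
    exact (hF1.fst.mul hc1.snd).sub (hF1.snd.mul hc1.fst)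
  have hs := hΦc.hasStrictFDerivAt (by norm_num)
  -- the derivative with respect to the second variable
  obtain ⟨D, hD, hDe⟩ := iter_deriv x₀ (iot_hasDerivAt τ z) n
  have hy : (hF x₀)^[n] (iot τ z) ≠ 0 := hN.iter_ne n (iot_ne τ z)
  have hcr : cr D (γ 0) ≠ 0 := by
    obtain ⟨a, ha, hae⟩ := (cr_eq_zero_iff hy hγ0).mp h0
    intro hz
    rw [hae, cr_smul_right, hz, mul_zero, mul_zero] at hDe
    have : (∏ j ∈ Finset.range n, wr x₀ ((hF x₀)^[j] (iot τ z))) *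
        cr (if τ then ((1 : ℂ), (0 : ℂ)) else (0, 1)) (iot τ z) ≠ 0 :=
      mul_ne_zero (Finset.prod_ne_zero_iff.mpr fun i hi => hw i (Finset.mem_range.mp hi))
        (cr_iot τ z)
    exact this hDe.symm
  have hpd : HasDerivAt (fun w => Φ (0, w)) (cr D (γ 0)) z := by
    have h1 := fst_hasDerivAt hD
    have h2 := snd_hasDerivAt hD
    have h3 := (h1.mul_const (γ 0).2).fun_sub (h2.mul_const (γ 0).1)
    have h4 : (fun w => Φ (0, w)) = fun w => ((hF x₀)^[n] (iot τ w)).1 * (γ 0).2 -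
        ((hF x₀)^[n] (iot τ w)).2 * (γ 0).1 := by
      funext w; simp only [hΦ, cr, hX.at0]
    rw [h4]
    exact h3
  have hpf : (fderiv ℂ Φ (0, z)) (0, 1) = cr D (γ 0) := by
    have h1 : HasDerivAt (fun w : ℂ => ((0 : Fin k → ℂ), w)) (0, 1) z :=
      (hasDerivAt_const z (0 : Fin k → ℂ)).prodMk (hasDerivAt_id z)
    have h2 := hs.hasFDerivAt.comp_hasDerivAt z h1
    exact h2.unique hpd
  have hinv : (fderiv ℂ Φ (0, z) ∘L .inr ℂ (Fin k → ℂ) ℂ).IsInvertible := by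
    refine ⟨ContinuousLinearEquiv.unitsEquivAut ℂ (Units.mk0 _ hcr), ?_⟩
    apply ContinuousLinearMap.ext_ring
    simp [hpf]
  set q := hs.implicitFunctionOfProdDomain hinv with hq
  have hqs := hs.hasStrictFDerivAt_implicitFunctionOfProdDomain hinv
  have hqe := hs.eventually_apply_implicitFunctionOfProdDomain hinv
  have hq0 : q 0 = z := by
    have := (hs.eventually_apply_eq_iff_implicitFunctionOfProdDomain hinv).self_of_nhds.mp rfl
    exact this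
  have hΦ0 : Φ (0, z) = 0 := by simp only [hΦ, hX.at0]; exact h0
  obtain ⟨K, s, hs0, hL⟩ := hqs.exists_lipschitzOnWith
  obtain ⟨r, hr, hrb⟩ := Metric.eventually_nhds_iff_ball.mp
    (hqe.and (Filter.eventually_mem_set.mpr hs0))
  refine ⟨q, min r ρ, lt_min hr hX.ρ0, min_le_right _ _, K, ?_, hq0, ?_⟩
  · intro a ha b hb
    have ha' : a ∈ s := (hrb a (ball_subset_ball (min_le_left _ _) ha)).2
    have hb' : b ∈ s := (hrb b (ball_subset_ball (min_le_left _ _) hb)).2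
    have := hL.dist_le_mul a ha' b hb'
    rwa [dist_eq_norm, dist_eq_norm] at this
  · intro a ha
    have := (hrb a (ball_subset_ball (min_le_left _ _) ha)).1
    rw [hΦ0] at this
    exact this

/-- a point near `z` which is mapped to the goal by an iterate, without critical points before -/
theorem near_g {d : ℕ} {x₀ : CV d} (hN : ND x₀) (hD : LEO x₀) {g : ℂ × ℂ} (hg0 : g ≠ 0)
    (hg : ∀ p : ℂ × ℂ, p ≠ 0 → wr x₀ p = 0 → ∀ n : ℕ, cr ((hF x₀)^[n + 1] p) g ≠ 0) (τ : Bool)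
    {z : ℂ} (hz : ‖z‖ ≤ 1) {ε : ℝ} (hε : 0 < ε) :
    ∃ z' : ℂ, ‖z' - z‖ ≤ ε ∧ ∃ n : ℕ,
      (∀ i < n, wr x₀ ((hF x₀)^[i] (iot τ z')) ≠ 0) ∧
        cr ((hF x₀)^[n] (iot τ z')) g = 0 := by
  set δ : ℝ := min (1 / 4) (ε / 8) with hδ
  have hδ0 : 0 < δ := lt_min (by norm_num) (by positivity)
  obtain ⟨N, hNN⟩ := hD δ hδ0
  obtain ⟨p, hp, hcho, hcr⟩ := hNN N le_rfl (iot τ z) g (iot_ne τ z) hg0
  obtain ⟨b, z', hb, hpz, hzz⟩ := cho_iot hz hδ0 (min_le_left _ _) hp hcho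
  have h8 : 8 * δ ≤ ε := by have := min_le_right (1 / 4) (ε / 8); rw [← hδ] at this; linarith
  have hcr' : cr ((hF x₀)^[N] (iot τ z')) g = 0 := by
    rw [hpz, hF_iter_smul, cr_smul_left] at hcr
    exact (mul_eq_zero.mp hcr).resolve_left (pow_ne_zero _ hb)
  refine ⟨z', hzz.trans h8, N, fun i hi' hw => ?_, hcr'⟩
  have e : N = (N - i - 1 + 1) + i := by omega
  rw [e, Function.iterate_add_apply] at hcr'
  exact hg _ (hN.iter_ne i (iot_ne τ z')) hw _ hcr'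

/-- the moving point, with noncritical points before -/
theorem ift4 {d k : ℕ} {x₀ : CV d} {c₀ : Fin k → ℂ} {m : Fin k → ℕ} {X : (Fin k → ℂ) → CV d}
    {c : Fin k → (Fin k → ℂ) → ℂ} {ρ : ℝ} (hN : ND x₀)
    (hX : Fami x₀ k c₀ m X c ρ) {γ : (Fin k → ℂ) → ℂ × ℂ} (hγ : DifferentiableOn ℂ γ (ball 0 ρ))
    (hγ0 : γ 0 ≠ 0) (τ : Bool) (z : ℂ) (n : ℕ)
    (hw : ∀ i < n, wr x₀ ((hF x₀)^[i] (iot τ z)) ≠ 0)
    (h0 : cr ((hF x₀)^[n] (iot τ z)) (γ 0) = 0) :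
    ∃ q : (Fin k → ℂ) → ℂ, ∃ r > (0 : ℝ), r ≤ ρ ∧ ∃ L : ℝ, IsT q r L ∧ q 0 = z ∧
      ∀ s ∈ ball (0 : Fin k → ℂ) r, Rch (X s) (γ s) (iot τ (q s)) := by
  obtain ⟨q, r, hr, hrρ, L, hq, hq0, hs⟩ := ift_g hN hX hγ hγ0 τ z n hw h0
  have hmem : (0 : Fin k → ℂ) ∈ ball (0 : Fin k → ℂ) r := mem_ball_self hr
  have hqc : ContinuousAt q 0 := by
    have h1 : ∀ᶠ s in 𝓝 (0 : Fin k → ℂ), dist (q s) (q 0) ≤ L * dist s 0 := by
      filter_upwards [ball_mem_nhds (0 : Fin k → ℂ) hr] with s hs'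
      rw [dist_eq_norm, dist_eq_norm]
      exact hq s hs' 0 hmem
    have h2 : Tendsto (fun s : Fin k → ℂ => L * dist s 0) (𝓝 0) (𝓝 0) := by
      have : Tendsto (fun s : Fin k → ℂ => L * dist s 0) (𝓝 0) (𝓝 (L * dist (0 : Fin k → ℂ) 0)) :=
        (continuous_const.mul (continuous_id.dist continuous_const)).tendsto 0
      simpa using this
    exact tendsto_iff_dist_tendsto_zero.2
      (squeeze_zero' (Eventually.of_forall fun _ => dist_nonneg) h1 h2)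
  have hXc : ContinuousAt X 0 :=
    (hX.dif.differentiableAt (isOpen_ball.mem_nhds (mem_ball_self hX.ρ0))).continuousAt
  have hio : Continuous (iot τ) := by
    cases τ with
    | true =>
      have e : iot true = fun z : ℂ => (z, (1 : ℂ)) := by funext z; simp [iot]
      rw [e]; exact continuous_id.prodMk continuous_const
    | false =>
      have e : iot false = fun z : ℂ => ((1 : ℂ), z) := by funext z; simp [iot]
      rw [e]; exact continuous_const.prodMk continuous_id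
  have hall : ∀ᶠ s in 𝓝 (0 : Fin k → ℂ), ∀ i ∈ Finset.range n,
      wr (X s) ((hF (X s))^[i] (iot τ (q s))) ≠ 0 := by
    rw [Finset.eventually_all]
    intro i hin
    have h1 : ContinuousAt (fun s => (hF (X s))^[i] (iot τ (q s))) 0 :=
      ContinuousAt.comp (f := fun s : Fin k → ℂ => (X s, iot τ (q s)))
        (g := fun q : CV d × (ℂ × ℂ) => (hF q.1)^[i] q.2)
        (hF_iter_continuous d i).continuousAt (hXc.prodMk (hio.continuousAt.comp hqc))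
    have h2 : ContinuousAt (fun s => wr (X s) ((hF (X s))^[i] (iot τ (q s)))) 0 :=
      ContinuousAt.comp (f := fun s : Fin k → ℂ => (X s, (hF (X s))^[i] (iot τ (q s))))
        (g := fun q : CV d × (ℂ × ℂ) => wr q.1 q.2)
        (wr_contDiff d 1).continuous.continuousAt (hXc.prodMk h1)
    refine h2.eventually_ne ?_
    rw [hX.at0, hq0]
    exact hw i (Finset.mem_range.1 hin)
  obtain ⟨r', hr', hb⟩ := Metric.eventually_nhds_iff_ball.mp hall
  refine ⟨q, min r r', lt_min hr hr', (min_le_left _ _).trans hrρ, L,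
    IsT_mono hq (min_le_left _ _) le_rfl, hq0, fun s hs' => ⟨n, fun i hin => ?_, ?_⟩⟩
  · exact hb s (ball_subset_ball (min_le_right _ _) hs') i (Finset.mem_range.2 hin)
  · exact hs s (ball_subset_ball (min_le_left _ _) hs')

/-- **Targets everywhere, general goals.** -/
theorem t_TG4 : Pool.Agent.H207.BT.S_TG4 := by
  intro d k x₀ c₀ m X c ρ γ hd hN hD hi hf hX hγ hγ0 hg ε hε hε1
  have hg0 : γ 0 ≠ 0 := hγ0 0 (mem_ball_self hX.ρ0)
  -- for one chart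
  have one : ∀ τ : Bool, ∃ ρ₁ > (0 : ℝ), ρ₁ ≤ ρ ∧ ∃ L : ℝ, ∀ z ∈ closedBall (0 : ℂ) 1,
      ∃ q : (Fin k → ℂ) → ℂ, IsT q ρ₁ L ∧ ‖q 0 - z‖ ≤ ε / 4 ∧
        ∀ s ∈ ball (0 : Fin k → ℂ) ρ₁, Rch (X s) (γ s) (iot τ (q s)) := by
    intro τ
    refine (isCompact_closedBall (0 : ℂ) 1).induction_on
      (p := fun K => ∃ ρ₁ > (0 : ℝ), ρ₁ ≤ ρ ∧ ∃ L : ℝ, ∀ z ∈ K,
        ∃ q : (Fin k → ℂ) → ℂ, IsT q ρ₁ L ∧ ‖q 0 - z‖ ≤ ε / 4 ∧
          ∀ s ∈ ball (0 : Fin k → ℂ) ρ₁, Rch (X s) (γ s) (iot τ (q s))) ?_ ?_ ?_ ?_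
    · exact ⟨ρ, hX.ρ0, le_rfl, 0, fun z hz => absurd hz (notMem_empty z)⟩
    · rintro s t hst ⟨ρ₁, h1, h2, L, h3⟩
      exact ⟨ρ₁, h1, h2, L, fun z hz => h3 z (hst hz)⟩
    · rintro s t ⟨ρ₁, h1, h2, L, h3⟩ ⟨ρ₂, g1, g2, L₂, g3⟩
      refine ⟨min ρ₁ ρ₂, lt_min h1 g1, (min_le_left _ _).trans h2, max L L₂, fun z hz => ?_⟩
      rcases hz with hz | hz
      · obtain ⟨q, hq, hqz, hs⟩ := h3 z hz
        exact ⟨q, IsT_mono hq (min_le_left _ _) (le_max_left _ _), hqz,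
          fun a ha => hs a (ball_subset_ball (min_le_left _ _) ha)⟩
      · obtain ⟨q, hq, hqz, hs⟩ := g3 z hz
        exact ⟨q, IsT_mono hq (min_le_right _ _) (le_max_right _ _), hqz,
          fun a ha => hs a (ball_subset_ball (min_le_right _ _) ha)⟩
    · intro z hz
      have hz1 : ‖z‖ ≤ 1 := by simpa using hz
      obtain ⟨z', hzz, n, hw, hc⟩ := near_g hN hD hg0 hg τ hz1 (show (0 : ℝ) < ε / 8 by positivity)
      obtain ⟨q, r, hr, hrρ, L, hq, hq0, hs⟩ := ift4 hN hX hγ hg0 τ z' n hw hc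
      refine ⟨ball z (ε / 8), mem_nhdsWithin_of_mem_nhds (ball_mem_nhds z (by positivity)),
        r, hr, hrρ, L, fun a ha => ⟨q, hq, ?_, hs⟩⟩
      rw [hq0]
      rw [mem_ball, dist_eq_norm] at ha
      calc ‖z' - a‖ = ‖(z' - z) - (a - z)‖ := by congr 1; ring
        _ ≤ ‖z' - z‖ + ‖a - z‖ := norm_sub_le _ _
        _ ≤ ε / 4 := by linarith
  choose r hr0 hrρ L hL using one
  obtain ⟨i₀, h0⟩ := Finite.exists_min r
  obtain ⟨i₁, h1⟩ := Finite.exists_max L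
  refine ⟨r i₀, hr0 i₀, hrρ i₀, L i₁, fun τ z hz => ?_⟩
  obtain ⟨z', hz', hzz⟩ := shift hz hε hε1
  obtain ⟨q, hq, hqz, hs⟩ := hL τ z' (by simpa using hz')
  refine ⟨q, IsT_mono hq (h0 _) (h1 _), ?_, ?_,
    fun s hs' => hs s (ball_subset_ball (h0 _) hs')⟩
  · have e : ‖z' - z‖ ≤ ‖q 0 - z‖ + ‖q 0 - z'‖ := by
      calc ‖z' - z‖ = ‖(q 0 - z) - (q 0 - z')‖ := by congr 1; ring
        _ ≤ _ := norm_sub_le _ _
    linarith
  · have e : ‖q 0 - z‖ ≤ ‖q 0 - z'‖ + ‖z' - z‖ := by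
      calc ‖q 0 - z‖ = ‖(q 0 - z') + (z' - z)‖ := by congr 1; ring
        _ ≤ _ := norm_add_le _ _
    linarith

end Pool.Agent.H703.BT207
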