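import Pool.Agent.H207.BT.Stm2

/-!
# Project BT: transport along the orbit
-/

set_option autoImplicit false

open Topology Filter Metric Set MeasureTheory Polynomial

namespace Pool.Agent.H703.BT207

open Pool.Agent.H790R3.RB Pool.Agent.H211.HY Pool.Agent.H207.BT

theorem cr_symm0 {p q : ℂ × ℂ} (h : cr p q = 0) : cr q p = 0 := by
  unfold cr at h ⊢
  linear_combination -h

/-- one step: if `x` maps the noncritical direction `p` to the direction `p'` and `p'` reaches `g`, so does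
`p` -/
theorem rch_step {d : ℕ} (hd : 2 ≤ d) {x : CV d} (hx : ND x) {g p p' : ℂ × ℂ} (hp : p ≠ 0)
    (hp' : p' ≠ 0) (hw : wr x p ≠ 0) (h : cr (hF x p) p' = 0) (hr : Rch x g p') : Rch x g p := by
  obtain ⟨n, hn1, hn2⟩ := hr
  have hFp : hF x p ≠ 0 := hx.iter_ne 1 hp
  refine ⟨n + 1, ?_, ?_⟩
  · intro j hj
    rcases Nat.eq_zero_or_pos j with rfl | hj0
    · exact hw
    · obtain ⟨j', rfl⟩ := Nat.exists_eq_succ_of_ne_zero hj0.ne'
      intro h0
      rw [Nat.succ_eq_add_one, Function.iterate_succ_apply] at h0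
      have h1 := cr_iter x j' hFp hp' h
      exact hn1 j' (by omega)
        (wr_of_par hd x (hx.iter_ne j' hp') (hx.iter_ne j' hFp) (cr_symm0 h1) h0)
  · rw [Function.iterate_succ_apply]
    exact cr_trans (hx.iter_ne n hp') (cr_iter x n hFp hp' h) hn2

/-- **Transport.** -/
theorem t_TRAN (h : Pool.Agent.H211.HY.S_DER) : Pool.Agent.H207.BT.S_TRAN := by
  intro d k x₀ c₀ m X c ρ' C K μ κ xx hc g i N s w hs hn hN
  have hsρ : s ∈ ball (0 : Fin k → ℂ) ρ' := mem_ball_zero_iff.2 hs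
  have hND := hc.fami.nd s hsρ
  have hg := hc.good i
  have hC := hg.C1
  have hC0 : 0 < C := by linarith
  have hstep : ∀ n < N, RPc x₀ X c₀ c g i (n + 1) s (YY (cf x₀ X (c₀ i)) w (n + 1) s) →
      RPc x₀ X c₀ c g i n s (YY (cf x₀ X (c₀ i)) w n s) := by
    intro n hnN hr
    obtain ⟨h1, h2⟩ := hn n hnN
    have hyb : YY (cf x₀ X (c₀ i)) w n s ∈ ball (cz x₀ (c₀ i) n) ρ' := by
      rw [mem_ball_iff_norm]
      exact h1
    have hx := hg.xx n
    have hdx := (hg.dx n).1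
    have hdn := hc.dfd i n s hsρ _ hyb
    have hder := (h d k (tau (qo x₀ (c₀ i) (n + 1))) (tau (qo x₀ (c₀ i) (n + 2)))
      (YY (cf x₀ X (c₀ i)) w n s) hc.hd).1 (X s) hdn
    have hle : xx i n / (2 * C) ≤ xx i n / C :=
      div_le_div_of_nonneg_left hx.1.le hC0 (by linarith)
    have hds := hg.ds n s hsρ _ hyb (h2.trans hle)
    have hne : deriv (cf x₀ X (c₀ i) n s) (YY (cf x₀ X (c₀ i)) w n s) ≠ 0 := by
      intro h0
      rw [h0, zero_sub, norm_neg] at hds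
      have hpos := norm_pos_iff.2 hdx
      have h3 : (‖s‖ + ‖YY (cf x₀ X (c₀ i)) w n s - cz x₀ (c₀ i) n‖) / xx i n ≤ 1 / (2 * C) := by
        rw [div_le_iff₀ hx.1]
        calc ‖s‖ + ‖YY (cf x₀ X (c₀ i)) w n s - cz x₀ (c₀ i) n‖ ≤ xx i n / (2 * C) := h2
          _ = 1 / (2 * C) * xx i n := by ring
      have h4 : C * ‖deriv (cf x₀ X (c₀ i) n 0) (cz x₀ (c₀ i) n)‖ *
          ((‖s‖ + ‖YY (cf x₀ X (c₀ i)) w n s - cz x₀ (c₀ i) n‖) / xx i n) ≤
          ‖deriv (cf x₀ X (c₀ i) n 0) (cz x₀ (c₀ i) n)‖ / 2 := by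
        calc C * ‖deriv (cf x₀ X (c₀ i) n 0) (cz x₀ (c₀ i) n)‖ *
            ((‖s‖ + ‖YY (cf x₀ X (c₀ i)) w n s - cz x₀ (c₀ i) n‖) / xx i n)
            ≤ C * ‖deriv (cf x₀ X (c₀ i) n 0) (cz x₀ (c₀ i) n)‖ * (1 / (2 * C)) :=
              mul_le_mul_of_nonneg_left h3 (by positivity)
          _ = ‖deriv (cf x₀ X (c₀ i) n 0) (cz x₀ (c₀ i) n)‖ / 2 := by field_simp
      linarith
    have hwr : wr (X s) (iot (tau (qo x₀ (c₀ i) (n + 1))) (YY (cf x₀ X (c₀ i)) w n s)) ≠ 0 := by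
      intro h0
      apply hne
      have h5 : cf x₀ X (c₀ i) n s =
          GG (X s) (tau (qo x₀ (c₀ i) (n + 1))) (tau (qo x₀ (c₀ i) (n + 2))) := rfl
      rw [h5, hder.deriv, h0]
      simp
    exact rch_step hc.hd hND (iot_ne _ _) (iot_ne _ _) hwr (hc.step i n s hsρ _ hyb) hr
  have hall : ∀ j ≤ N, RPc x₀ X c₀ c g i (N - j) s (YY (cf x₀ X (c₀ i)) w (N - j) s) := by
    intro j
    induction j with
    | zero =>
      intro _
      exact hN
    | succ j ih =>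
      intro hj
      have h1 := ih (by omega)
      obtain ⟨n, hn'⟩ : ∃ n, N - j = n + 1 := ⟨N - j - 1, by omega⟩
      have h2 : N - (j + 1) = n := by omega
      rw [hn'] at h1
      rw [h2]
      exact hstep n (by omega) h1
  have h6 := hall N le_rfl
  rw [Nat.sub_self] at h6
  exact h6

end Pool.Agent.H703.BT207
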